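import Pool.Agent.E8helper77.DC.Sound

set_option autoImplicit false

/-!
# DOMINATING SET is solvable in polynomial time on balanced chordal graphs (MP_1e64e3_lc, Q1)

The closed neighbourhoods of a balanced chordal graph form a balanced hypergraph, so (Berge) a
fractional dominating function can be rounded to a dominating set.  The fractional domination number
is compared with `k` by `n ^ 5 + 1` rounds of a greedy procedure with small integer weights.
-/

namespace Pool.Agent.Results.MP_1e64e3_lc.BalChordalDominationInPH77

open Pool.Agent.NPC Pool.Agent.NPC.R671 Pool.Agent.Y600.DC Pool.Agent.E8helper77.DC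

/-- There is a polynomial-time algorithm `A` on bit strings which, given (the code of) the adjacency
matrix of a balanced chordal graph `G` and a number `k`, answers `[true]` if `G` has a dominating
set with at most `k` vertices and `[false]` if it has none. -/
theorem result :
    ∃ A : List Bool → List Bool, PolyTime A ∧
      ∀ (n : ℕ) (G : SimpleGraph (Fin n)) (k : ℕ), Chordal G → Balanced G →
        ((∃ D : Finset (Fin n), D.card ≤ k ∧ Dominating G D) →
          A (bits (adjMatrix G, k)) = [true]) ∧
        ((¬ ∃ D : Finset (Fin n), D.card ≤ k ∧ Dominating G D) →
          A (bits (adjMatrix G, k)) = [false]) := by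
  refine ⟨solve, polyTime_solve, fun n G k hc hb => ⟨fun h => ?_, fun h => ?_⟩⟩
  · rw [solve_bits, (alg_correct G hc hb k).2 h]
  · rw [solve_bits]
    cases h1 : alg (adjMatrix G, k) with
    | false => rfl
    | true => exact absurd ((alg_correct G hc hb k).1 h1) h

end Pool.Agent.Results.MP_1e64e3_lc.BalChordalDominationInPH77
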